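import Pool.Agent.Helper76.SobDiff.Main
import Pool.Agent.Helper76.SobDiff.Sanity

/-!
# The diameter of `Diff_0(S^n)` for right-invariant `W^{s,p}` metrics is finite for `s < 1 + n/p`

All definitions are in `Pool.Agent.Helper76.SobDiff.Defs`; chart data exist by
`Pool.Agent.Helper76.SobDiff.nonempty_chartData`.

Idea of the proof. Conjugating a path of diffeomorphisms that is supported in a fixed
stereographic ball by the homothety of ratio `λ ≤ 1` multiplies its `W^{s,p}` length by at most a
constant times `λ^(1 - s + n/p)`.  Since the exponent is positive for `s < 1 + n/p`, the infinite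
product of the conjugates of one contraction has finite length, so arbitrarily strong contractions
of a hemisphere have uniformly bounded distance to the identity.  Conjugation by them shows that
all diffeomorphisms supported in a hemisphere, and then all those that are the identity near a
point, are at uniformly bounded distance from the identity; every element of `Diff_0(S^n)` is a
product of two of the latter kind, as `n ≥ 2`.
-/

namespace Pool.Agent.Results.MP_395ed7_gt.FiniteDiameter

open Pool.Agent.Helper76.SobDiff

/-- For every `n ≥ 2`, every `p > 1`, every `0 ≤ s < 1 + n / p` and every choice of the chart data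
that define the `W^{s,p}` norm, the diameter of `Diff_0(S^n)` is finite. -/
theorem result (n : ℕ) (hn : 2 ≤ n) (p s : ℝ) (hp : 1 < p) (hs0 : 0 ≤ s)
    (hs : s < 1 + n / p) (𝒜 : ChartData n) : 𝒜.diam s p < ⊤ :=
  diam_lt_top 𝒜 hn hp.le hs0 hs

end Pool.Agent.Results.MP_395ed7_gt.FiniteDiameter
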